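import Pool.Agent.N659.HB.Stm6
import Pool.Agent.N935.NP.Caui

/-!
# Project LD (helper659), part CPOW (helper771): powers of the Cayley transform of a Cauchy variable
-/

set_option autoImplicit false

namespace Pool.Agent.N771.LD

open MeasureTheory Complex Filter Topology Pool.Agent.W792.LL Pool.Agent.N659.HB
open Pool.Agent.N935.NP

namespace Cpow

theorem norm_inv_le {c : ℝ} (hc : 0 < c) {x : ℂ} (hx : x.im ≤ -c) (a : ℝ) :
    ‖((a : ℂ) + x)⁻¹‖ ≤ c⁻¹ := by
  rw [norm_inv]
  refine inv_anti₀ hc (le_trans ?_ (Caui.im_le x a))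
  rw [abs_of_nonpos (by linarith)]
  linarith

theorem cont {x : ℂ} (hx : x.im < 0) (k : ℕ) : Continuous fun a : ℝ => (((a : ℂ) + x)⁻¹) ^ k :=
  ((by fun_prop : Continuous fun a : ℝ => (a : ℂ) + x).inv₀ fun a => Caui.add_ne hx a).pow k

theorem integrable_pow {x : ℂ} (hx : x.im < 0) (k : ℕ) :
    Integrable (fun a : ℝ => (((a : ℂ) + x)⁻¹) ^ k) (ProbabilityTheory.cauchyMeasure 0 1) := by
  refine Integrable.of_bound (C := ((-x.im)⁻¹) ^ k) (cont hx k).aestronglyMeasurable
    (Eventually.of_forall fun a => ?_)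
  rw [norm_pow]
  exact pow_le_pow_left₀ (norm_nonneg _) (norm_inv_le (by linarith) (by linarith) a) k

theorem hda {x : ℂ} (a : ℂ) (hx : a + x ≠ 0) (j : ℕ) :
    HasDerivAt (fun x : ℂ => ((a + x)⁻¹) ^ (j + 1)) (-((j : ℂ) + 1) * ((a + x)⁻¹) ^ (j + 2)) x := by
  have h1 : HasDerivAt (fun x : ℂ => a + x) 1 x := (hasDerivAt_id x).const_add a
  have h2 := (h1.inv hx).pow (j + 1)
  refine h2.congr_deriv ?_
  push_cast
  show ((j : ℂ) + 1) * ((a + x)⁻¹) ^ j * (-1 / (a + x) ^ 2) = _
  rw [pow_add, div_eq_mul_inv, ← inv_pow]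
  ring

theorem moment (k : ℕ) : ∀ u : ℂ, u.im < 0 →
    ∫ a : ℝ, (((a : ℂ) + u)⁻¹) ^ (k + 1) ∂(ProbabilityTheory.cauchyMeasure 0 1) =
      ((u - I)⁻¹) ^ (k + 1) := by
  induction k with
  | zero =>
    intro u hu
    have := Caui.key hu
    simpa [one_div] using this
  | succ k ih =>
    intro u hu
    set c : ℝ := -u.im / 2 with hc
    have hc0 : 0 < c := by rw [hc]; linarith
    have hs : {x : ℂ | x.im < -c} ∈ 𝓝 u := by
      refine (isOpen_lt Complex.continuous_im continuous_const).mem_nhds ?_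
      show u.im < -c
      rw [hc]
      linarith
    have hneg : ∀ x ∈ {x : ℂ | x.im < -c}, x.im < 0 := fun x hx => by
      have : x.im < -c := hx
      linarith
    have h1 := (hasDerivAt_integral_of_dominated_loc_of_deriv_le
      (μ := ProbabilityTheory.cauchyMeasure 0 1) (𝕜 := ℂ)
      (F := fun x (a : ℝ) => (((a : ℂ) + x)⁻¹) ^ (k + 1))
      (F' := fun x (a : ℝ) => -((k : ℂ) + 1) * (((a : ℂ) + x)⁻¹) ^ (k + 2)) (x₀ := u)
      (bound := fun _ => ‖-((k : ℂ) + 1)‖ * (c⁻¹) ^ (k + 2)) hs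
      (Filter.mem_of_superset hs fun x hx => (cont (hneg x hx) _).aestronglyMeasurable)
      (integrable_pow hu _) (((cont hu _).aestronglyMeasurable).const_mul _)
      (Eventually.of_forall fun a x hx => by
        rw [norm_mul, norm_pow]
        refine mul_le_mul_of_nonneg_left (pow_le_pow_left₀ (norm_nonneg _)
          (norm_inv_le hc0 (le_of_lt hx) a) _) (norm_nonneg _))
      (integrable_const _)
      (Eventually.of_forall fun a x hx => hda _ (Caui.add_ne (hneg x hx) a) k)).2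
    have h2 : (fun x : ℂ => ∫ a : ℝ, (((a : ℂ) + x)⁻¹) ^ (k + 1)
        ∂(ProbabilityTheory.cauchyMeasure 0 1)) =ᶠ[𝓝 u] fun x => ((-I + x)⁻¹) ^ (k + 1) :=
      Filter.mem_of_superset hs fun x hx => by
        show ∫ a : ℝ, (((a : ℂ) + x)⁻¹) ^ (k + 1) ∂(ProbabilityTheory.cauchyMeasure 0 1) = _
        rw [ih x (hneg x hx)]
        ring
    have hne : -I + u ≠ 0 := by
      intro h
      have := congrArg Complex.im h
      simp at this
      linarith
    have h3 := (hda (-I) hne k).congr_of_eventuallyEq h2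
    have h4 := h1.unique h3
    rw [integral_const_mul] at h4
    have hk : -((k : ℂ) + 1) ≠ 0 := by
      rw [neg_ne_zero]
      exact_mod_cast Nat.succ_ne_zero k
    have h5 := mul_left_cancel₀ hk h4
    rw [show k + 1 + 1 = k + 2 by ring, h5]
    ring

theorem moment' (k : ℕ) {u : ℂ} (hu : u.im < 0) :
    ∫ a : ℝ, (((a : ℂ) + u)⁻¹) ^ k ∂(ProbabilityTheory.cauchyMeasure 0 1) =
      ((u - I)⁻¹) ^ k := by
  cases k with
  | zero => simp
  | succ k => exact moment k u hu

end Cpow

open Cpow in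
/-- Part CPOW. -/
theorem main : S_CPOW := by
  intro w δ n hδ
  have hδ' : (δ : ℂ) ≠ 0 := by exact_mod_cast hδ.ne'
  set u : ℂ := ((w : ℂ) - I) / δ with hu
  have huim : u.im < 0 := by
    rw [hu, Complex.div_ofReal_im]
    apply div_neg_of_neg_of_pos _ hδ
    simp
  have h1 : ∀ a : ℝ, cay (w + δ * a) ^ n = ∑ m ∈ Finset.range (n + 1),
      ((2 * I / δ) ^ m * (n.choose m : ℂ)) * (((a : ℂ) + u)⁻¹) ^ m := by
    intro a
    have e1 := Caui.add_ne huim a
    have e2 : ((w + δ * a : ℝ) : ℂ) - I = δ * (a + u) := by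
      rw [hu]
      push_cast
      field_simp
      ring
    have e3 : cay (w + δ * a) = (2 * I / δ) * ((a : ℂ) + u)⁻¹ + 1 := by
      unfold cay
      have e4 : ((w + δ * a : ℝ) : ℂ) + I = δ * (a + u) + 2 * I := by
        rw [← e2]
        ring
      rw [e2, e4]
      field_simp
      ring
    rw [e3, add_pow]
    refine Finset.sum_congr rfl fun m _ => ?_
    rw [mul_pow, one_pow]
    ring
  have hne : u - I ≠ 0 := by
    intro h
    have := congrArg Complex.im h
    simp at this
    linarith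
  rw [integral_congr_ae (Eventually.of_forall h1),
    integral_finsetSum _ fun m _ => (integrable_pow huim m).const_mul _]
  have e5 : (w : ℂ) - δ * I - I = δ * (u - I) := by
    rw [hu]
    field_simp
    ring
  have e6 : ((w : ℂ) - δ * I + I) / ((w : ℂ) - δ * I - I) = (2 * I / δ) * (u - I)⁻¹ + 1 := by
    have e7 : (w : ℂ) - δ * I + I = δ * (u - I) + 2 * I := by
      rw [← e5]
      ring
    rw [e5, e7]
    field_simp
    ring
  rw [e6, add_pow]
  refine Finset.sum_congr rfl fun m _ => ?_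
  rw [integral_const_mul, moment' m huim, mul_pow, one_pow]
  ring

end Pool.Agent.N771.LD
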